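import Pool.Agent.Run7.h800.RG.Stm

/-! # Piece BAY of the project RG (helper800): Bayes' formula -/

set_option autoImplicit false

namespace Run7.h590.RG

open MeasureTheory ProbabilityTheory Set Filter Topology
open scoped ENNReal NNReal
open Run7.h800.RG

/-- change of measure, abstractly -/
theorem law_abs {Ω₀ E : Type*} [MeasurableSpace Ω₀] [MeasurableSpace E] (PB : Measure Ω₀)
    [IsProbabilityMeasure PB] (ν : Measure ℝ) [IsProbabilityMeasure ν] (γ : Measure E) [SFinite γ]
    (T : Ω₀ × ℝ → E) (hT : Measurable T) (ρ : ℝ → E → ℝ≥0∞)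
    (hρ : Measurable (fun p : ℝ × E => ρ p.1 p.2))
    (hmap : ∀ θ, PB.map (fun ω₀ => T (ω₀, θ)) = γ.withDensity (ρ θ)) (h : ℝ → ℝ≥0∞)
    (hh : Measurable h) (φ : E → ℝ≥0∞) (hφ : Measurable φ) :
    ∫⁻ ω, h ω.2 * φ (T ω) ∂(PB.prod ν) = ∫⁻ x, φ x * (∫⁻ θ, h θ * ρ θ x ∂ν) ∂γ := by
  have hm : Measurable (fun ω : Ω₀ × ℝ => h ω.2 * φ (T ω)) :=
    (hh.comp measurable_snd).mul (hφ.comp hT)
  have hρθ : ∀ θ, Measurable (ρ θ) := fun θ => hρ.comp (measurable_const.prodMk measurable_id)
  have hρx : ∀ x, Measurable (fun θ => ρ θ x) := fun x =>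
    hρ.comp (measurable_id.prodMk measurable_const)
  have hTθ : ∀ θ, Measurable (fun ω₀ => T (ω₀, θ)) := fun θ =>
    hT.comp (measurable_id.prodMk measurable_const)
  rw [lintegral_prod_symm' _ hm]
  have h1 : ∀ θ, ∫⁻ ω₀, h θ * φ (T (ω₀, θ)) ∂PB = ∫⁻ x, h θ * (ρ θ x * φ x) ∂γ := by
    intro θ
    have a1 : Measurable (fun ω₀ => φ (T (ω₀, θ))) := hφ.comp (hTθ θ)
    have a2 : Measurable (fun x => ρ θ x * φ x) := (hρθ θ).mul hφ
    rw [lintegral_const_mul _ a1, lintegral_const_mul _ a2]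
    congr 1
    rw [← lintegral_map hφ (hTθ θ), hmap θ, lintegral_withDensity_eq_lintegral_mul _ (hρθ θ) hφ]
    rfl
  simp only [h1]
  rw [lintegral_lintegral_swap ((hh.comp measurable_fst).mul (hρ.mul (hφ.comp measurable_snd))).aemeasurable]
  refine lintegral_congr fun x => ?_
  have hm2 : Measurable (fun θ => h θ * ρ θ x) := hh.mul (hρx x)
  rw [← lintegral_const_mul _ hm2]
  refine lintegral_congr fun θ => ?_
  ring

theorem abs2 {E : Type*} [MeasurableSpace E] (γ : Measure E) [SFinite γ] (ν : Measure ℝ) [SFinite ν]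
    (c : ℝ≥0∞) (g : E → ℝ → ℝ≥0∞) (hg : Measurable (fun p : E × ℝ => g p.1 p.2)) :
    ∫⁻ x, c * (∫⁻ θ, ∫⁻ θ', g x θ * g x θ' ∂ν ∂ν) ∂γ =
      c * ∫⁻ θ, ∫⁻ θ', ∫⁻ x, g x θ * g x θ' ∂γ ∂ν ∂ν := by
  have hm3 : Measurable (fun q : E × (ℝ × ℝ) => g q.1 q.2.1 * g q.1 q.2.2) := by
    have a1 : Measurable (fun q : E × (ℝ × ℝ) => (q.1, q.2.1)) := by fun_prop
    have a2 : Measurable (fun q : E × (ℝ × ℝ) => (q.1, q.2.2)) := by fun_prop
    exact (hg.comp a1).mul (hg.comp a2)
  have hmx : ∀ x : E, Measurable (fun p : ℝ × ℝ => g x p.1 * g x p.2) := fun x =>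
    hm3.comp (measurable_const.prodMk measurable_id)
  have e1 : ∀ x : E, ∫⁻ θ, ∫⁻ θ', g x θ * g x θ' ∂ν ∂ν =
      ∫⁻ p : ℝ × ℝ, g x p.1 * g x p.2 ∂(ν.prod ν) := fun x =>
    (lintegral_prod _ (hmx x).aemeasurable).symm
  simp only [e1]
  rw [lintegral_const_mul _ (hm3.lintegral_prod_right' (ν := ν.prod ν))]
  congr 1
  rw [lintegral_lintegral_swap hm3.aemeasurable]
  have hmc : Measurable (fun p : ℝ × ℝ => ∫⁻ x, g x p.1 * g x p.2 ∂γ) :=
    hm3.lintegral_prod_left' (μ := γ)
  rw [lintegral_prod _ hmc.aemeasurable]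

/-- extension by zero -/
noncomputable def ext (j : ℕ) (x : Fin j → ℝ) : ℕ → ℝ := fun i => if h : i < j then x ⟨i, h⟩ else 0

theorem ext_coe (j : ℕ) (x : Fin j → ℝ) (i : Fin j) : ext j x i = x i := by
  unfold ext
  rw [dif_pos i.2]

theorem measurable_ext (j : ℕ) : Measurable (ext j) := by
  refine measurable_pi_lambda _ fun i => ?_
  unfold ext
  by_cases h : i < j
  · simp only [dif_pos h]
    exact measurable_pi_apply _
  · simp only [dif_neg h]
    exact measurable_const

instance : IsProbabilityMeasure PE := ⟨by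
  simp [PE, ENNReal.inv_two_add_inv_two]⟩

theorem NN_pos (n : ℕ) : 0 < NN n := by
  induction n with
  | zero => simp [NN]
  | succ n ih => simp only [NN]; exact Nat.mul_pos ih (by unfold mm; omega)

theorem L_pos (n j : ℕ) (θ : ℝ) (x : ℕ → ℝ) : 0 < L n j θ x := Real.exp_pos _

theorem measurable_L (hA : S_ARI) (n j : ℕ) :
    Measurable (fun p : ℝ × (ℕ → ℝ) => L n j p.1 p.2) := by
  unfold L
  refine Real.measurable_exp.comp (measurable_const.mul ?_)
  refine Finset.measurable_sum _ fun i _ => ?_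
  have h1 : Measurable (fun p : ℝ × (ℕ → ℝ) => w n p.1 i) := (hA.2.2.2.1 n i).comp measurable_fst
  have h2 : Measurable (fun p : ℝ × (ℕ → ℝ) => p.2 i) := (measurable_pi_apply i).comp measurable_snd
  exact (h1.mul h2).sub ((h1.pow_const 2).div_const 2)

theorem w_mem (hA : S_ARI) (n : ℕ) (θ : ℝ) (j : ℕ) : 0 ≤ w n θ j ∧ w n θ j ≤ 1 := by
  obtain ⟨h1, h2⟩ := hA.2.2.1 n θ j
  exact ⟨h1, h2.trans (pow_le_one₀ (by norm_num) (by norm_num))⟩

theorem L_le (hA : S_ARI) (n j : ℕ) (θ : ℝ) (x : ℕ → ℝ) :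
    L n j θ x ≤ Real.exp ((NN n : ℝ) * ∑ i ∈ Finset.range j, |x i|) := by
  unfold L
  refine Real.exp_le_exp.2 (mul_le_mul_of_nonneg_left (Finset.sum_le_sum fun i _ => ?_)
    (Nat.cast_nonneg _))
  obtain ⟨h1, h2⟩ := w_mem hA n θ i
  have h3 : w n θ i * x i ≤ |x i| := by
    calc w n θ i * x i ≤ w n θ i * |x i| := mul_le_mul_of_nonneg_left (le_abs_self _) h1
      _ ≤ 1 * |x i| := mul_le_mul_of_nonneg_right h2 (abs_nonneg _)
      _ = |x i| := one_mul _
  nlinarith [sq_nonneg (w n θ i)]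

theorem integrable_L (hA : S_ARI) (n j : ℕ) (x : ℕ → ℝ) : Integrable (fun θ => L n j θ x) PE := by
  refine Integrable.of_bound (C := Real.exp ((NN n : ℝ) * ∑ i ∈ Finset.range j, |x i|))
    ((measurable_L hA n j).comp (measurable_id.prodMk measurable_const)).aestronglyMeasurable ?_
  refine Eventually.of_forall fun θ => ?_
  rw [Real.norm_of_nonneg (L_pos _ _ _ _).le]
  exact L_le hA n j θ x

theorem integrable_wL (hA : S_ARI) (n j : ℕ) (x : ℕ → ℝ) :
    Integrable (fun θ => w n θ j * L n j θ x) PE := by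
  refine Integrable.of_bound (C := Real.exp ((NN n : ℝ) * ∑ i ∈ Finset.range j, |x i|))
    ((hA.2.2.2.1 n j).mul ((measurable_L hA n j).comp
      (measurable_id.prodMk measurable_const))).aestronglyMeasurable ?_
  refine Eventually.of_forall fun θ => ?_
  obtain ⟨h1, h2⟩ := w_mem hA n θ j
  rw [Real.norm_of_nonneg (mul_nonneg h1 (L_pos _ _ _ _).le)]
  calc w n θ j * L n j θ x ≤ 1 * L n j θ x := mul_le_mul_of_nonneg_right h2 (L_pos _ _ _ _).le
    _ = L n j θ x := one_mul _
    _ ≤ _ := L_le hA n j θ x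

theorem w_neg (n : ℕ) {θ : ℝ} (h : θ < 0) (j : ℕ) : w n θ j = 0 := by
  unfold w; rw [if_pos h]

theorem half_le_D (hA : S_ARI) (n j : ℕ) (x : ℕ → ℝ) : 1 / 2 ≤ D n j x := by
  have h1 : L n j (-1) x = 1 := by
    unfold L
    have : ∀ i, w n (-1) i = 0 := fun i => w_neg n (by norm_num) i
    simp [this]
  have hi := integrable_L hA n j x
  unfold D
  have hPE : PE = (2⁻¹ : ℝ≥0∞) • Measure.dirac (-1) + (2⁻¹ : ℝ≥0∞) • volume.restrict (Ico 0 1) := rfl
  rw [hPE] at hi ⊢
  obtain ⟨hi1, hi2⟩ := integrable_add_measure.1 hi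
  rw [integral_add_measure hi1 hi2, integral_smul_measure, integral_smul_measure, integral_dirac, h1]
  have h2 : 0 ≤ ∫ θ in Ico (0 : ℝ) 1, L n j θ x := integral_nonneg fun θ => (L_pos _ _ _ _).le
  have h3 : ((2⁻¹ : ℝ≥0∞)).toReal = 1 / 2 := by simp
  rw [h3]
  simp only [smul_eq_mul]
  linarith

theorem U_nonneg (hA : S_ARI) (n j : ℕ) (x : ℕ → ℝ) : 0 ≤ U n j x :=
  integral_nonneg fun θ => mul_nonneg (w_mem hA n θ j).1 (L_pos _ _ _ _).le

theorem be_nonneg (hA : S_ARI) (n j : ℕ) (x : ℕ → ℝ) : 0 ≤ be n (j, x) := by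
  unfold be
  have := half_le_D hA n j x
  have := U_nonneg hA n j x
  have : (0 : ℝ) ≤ NN n := Nat.cast_nonneg _
  simp only
  positivity

theorem be_mul_D (hA : S_ARI) (n j : ℕ) (x : ℕ → ℝ) : be n (j, x) * D n j x = NN n * U n j x := by
  have := half_le_D hA n j x
  unfold be
  simp only
  field_simp

theorem measurable_D (hA : S_ARI) (n j : ℕ) : Measurable (D n j) := by
  have h : StronglyMeasurable (fun p : (ℕ → ℝ) × ℝ => L n j p.2 p.1) :=
    ((measurable_L hA n j).comp measurable_swap).stronglyMeasurable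
  exact (h.integral_prod_right (ν := PE)).measurable

theorem measurable_U (hA : S_ARI) (n j : ℕ) : Measurable (U n j) := by
  have h : StronglyMeasurable (fun p : (ℕ → ℝ) × ℝ => w n p.2 j * L n j p.2 p.1) :=
    (((hA.2.2.2.1 n j).comp measurable_snd).mul
      ((measurable_L hA n j).comp measurable_swap)).stronglyMeasurable
  exact (h.integral_prod_right (ν := PE)).measurable

theorem measurable_be (hA : S_ARI) (n j : ℕ) : Measurable (fun x : ℕ → ℝ => be n (j, x)) := by
  unfold be
  exact (measurable_const.mul (measurable_U hA n j)).div (measurable_D hA n j)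

theorem ofReal_D (hA : S_ARI) (n j : ℕ) (x : ℕ → ℝ) :
    ∫⁻ θ, ENNReal.ofReal (L n j θ x) ∂PE = ENNReal.ofReal (D n j x) := by
  unfold D
  exact (ofReal_integral_eq_lintegral_ofReal (integrable_L hA n j x)
    (Eventually.of_forall fun θ => (L_pos _ _ _ _).le)).symm

theorem ofReal_U (hA : S_ARI) (n j : ℕ) (x : ℕ → ℝ) :
    ∫⁻ θ, ENNReal.ofReal (w n θ j * L n j θ x) ∂PE = ENNReal.ofReal (U n j x) := by
  unfold U
  exact (ofReal_integral_eq_lintegral_ofReal (integrable_wL hA n j x)
    (Eventually.of_forall fun θ => mul_nonneg (w_mem hA n θ j).1 (L_pos _ _ _ _).le)).symm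

attribute [local irreducible] L w U D be ext

section
variable {Ω₀ : Type} [MeasurableSpace Ω₀] {PB : Measure Ω₀} {W : ℝ≥0 → Ω₀ → ℝ}

omit [MeasurableSpace Ω₀] in
theorem dM_eq (hC : S_CDF) (n i : ℕ) (hi : i < NN n) (ω : Ω₀ × ℝ) :
    dM W n i ω = (W (gt n (i + 1)) ω.1 - W (gt n i) ω.1) + w n ω.2 i := by
  unfold dM M
  have h1 : A ω.2 ((gt n (i + 1) : ℝ≥0) : ℝ) = ∑ l ∈ Finset.range (i + 1), w n ω.2 l := by
    have := hC.2.2.2.2.2.2 ω.2 n (i + 1) hi
    rw [← this]
    rfl
  have h2 : A ω.2 ((gt n i : ℝ≥0) : ℝ) = ∑ l ∈ Finset.range i, w n ω.2 l := by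
    have := hC.2.2.2.2.2.2 ω.2 n i hi.le
    rw [← this]
    rfl
  rw [h1, h2, Finset.sum_range_succ]
  ring

/-- the density is the likelihood ratio -/
theorem dens_eq (n j : ℕ) (θ : ℝ) (x : Fin j → ℝ) :
    Real.exp ((∑ i : Fin j, (w n θ i * x i - (w n θ i) ^ 2 / 2)) / ((1 / (NN n : ℝ≥0) : ℝ≥0) : ℝ)) =
      L n j θ (ext j x) := by
  unfold L
  congr 1
  rw [Finset.sum_range]
  have h : ∀ i : Fin j, w n θ i * ext j x i - w n θ i ^ 2 / 2 = w n θ i * x i - w n θ i ^ 2 / 2 := by
    intro i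
    rw [ext_coe]
  simp only [h]
  push_cast
  rw [one_div, div_inv_eq_mul, mul_comm]

theorem v_ne (n : ℕ) : (1 / (NN n : ℝ≥0) : ℝ≥0) ≠ 0 := by
  have : (NN n : ℝ≥0) ≠ 0 := by exact_mod_cast (NN_pos n).ne'
  simp [this]

theorem mL1 (hA : S_ARI) (n j : ℕ) :
    Measurable (fun p : ℝ × (Fin j → ℝ) => ENNReal.ofReal (L n j p.1 (ext j p.2))) := by
  have h2 : Measurable (fun p : ℝ × (Fin j → ℝ) => (p.1, ext j p.2)) :=
    measurable_fst.prodMk ((measurable_ext j).comp measurable_snd)
  exact ((measurable_L hA n j).comp h2).ennreal_ofReal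

theorem hmap' (hG : S_GAU) (n j : ℕ) (θ : ℝ) :
    (Measure.pi fun _ : Fin j => gaussianReal 0 (1 / (NN n : ℝ≥0))).map
      (fun (x : Fin j → ℝ) (i : Fin j) => x i + w n θ i) =
      (Measure.pi fun _ : Fin j => gaussianReal 0 (1 / (NN n : ℝ≥0))).withDensity
        (fun x => ENNReal.ofReal (L n j θ (ext j x))) := by
  rw [(hG j _ (v_ne n) (fun i => w n θ i) (fun i => w n θ i)).1]
  congr 1
  funext x
  rw [dens_eq]

theorem measurable_dM (hA : S_ARI) (hC : S_CDF) (hW : BM PB W) (n j : ℕ) (hj : j < NN n) :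
    Measurable (fun ω : Ω₀ × ℝ => fun i : Fin j => dM W n i ω) := by
  refine measurable_pi_lambda _ fun i => ?_
  have e : (fun ω : Ω₀ × ℝ => dM W n i ω) =
      fun ω => (W (gt n (i + 1)) ω.1 - W (gt n i) ω.1) + w n ω.2 i := by
    funext ω
    exact dM_eq hC n i (i.2.trans hj) ω
  rw [e]
  exact (((hW.meas _).comp measurable_fst).sub ((hW.meas _).comp measurable_fst)).add
    ((hA.2.2.2.1 n i).comp measurable_snd)

theorem law (hA : S_ARI) (hC : S_CDF) (hG : S_GAU) (hI : S_INC) (hW : BM PB W) (n j : ℕ)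
    (hj : j < NN n) (h : ℝ → ℝ≥0∞) (hh : Measurable h) (φ : (Fin j → ℝ) → ℝ≥0∞)
    (hφ : Measurable φ) :
    ∫⁻ ω, h ω.2 * φ (fun i : Fin j => dM W n i ω) ∂(PB.prod PE) =
      ∫⁻ x, φ x * (∫⁻ θ, h θ * ENNReal.ofReal (L n j θ (ext j x)) ∂PE)
        ∂(Measure.pi fun _ : Fin j => gaussianReal 0 (1 / (NN n : ℝ≥0))) := by
  have := hW.prob
  refine law_abs PB PE _ (fun ω : Ω₀ × ℝ => fun i : Fin j => dM W n i ω)
    (measurable_dM hA hC hW n j hj) (fun θ x => ENNReal.ofReal (L n j θ (ext j x))) (mL1 hA n j)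
    ?_ h hh φ hφ
  intro θ
  rw [← hmap' hG n j θ, ← hI Ω₀ _ PB W hW n j]
  have h1 : Measurable (fun ω (i : Fin j) => W (gt n (i + 1)) ω - W (gt n i) ω) :=
    measurable_pi_lambda _ fun i => (hW.meas _).sub (hW.meas _)
  have h2 : Measurable (fun (x : Fin j → ℝ) (i : Fin j) => x i + w n θ i) :=
    measurable_pi_lambda _ fun i => (measurable_pi_apply i).add_const _
  rw [Measure.map_map h2 h1]
  congr 1
  funext ω₀ i
  exact dM_eq hC n i (i.2.trans hj) (ω₀, θ)

omit [MeasurableSpace Ω₀] in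
theorem if_ext (n j : ℕ) (ω : Ω₀ × ℝ) : (fun i => if i < j then dM W n i ω else 0) =
    ext j (fun i : Fin j => dM W n i ω) := by
  funext i
  unfold ext
  by_cases h : i < j
  · rw [if_pos h, dif_pos h]
  · rw [if_neg h, dif_neg h]

end

theorem t_BAY : S_ARI → S_CDF → S_ENE → S_GAU → S_INC → S_BAY := by
  intro hA hC hE hG hI
  obtain ⟨C, hC0, hEn⟩ := hE
  refine ⟨2 * C, by positivity, ?_⟩
  intro Ω₀ _ PB W hW n j hj
  have := hW.prob
  set γ : Measure (Fin j → ℝ) := Measure.pi fun _ : Fin j => gaussianReal 0 (1 / (NN n : ℝ≥0)) with hγ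
  have hLm := mL1 hA n j
  have hNN : (0 : ℝ) ≤ NN n := Nat.cast_nonneg _
  refine ⟨measurable_be hA n j, be_nonneg hA n j, ?_, ?_⟩
  · intro C' hC'
    have hind : Measurable (fun x : Fin j → ℝ => C'.indicator (fun _ => (1 : ℝ≥0∞)) (ext j x)) :=
      (measurable_const.indicator hC').comp (measurable_ext j)
    have h1 := law hA hC hG hI hW n j hj (fun θ => ENNReal.ofReal ((NN n : ℝ) * w n θ j))
      (measurable_const.mul (hA.2.2.2.1 n j)).ennreal_ofReal
      (fun x => C'.indicator (fun _ => (1 : ℝ≥0∞)) (ext j x)) hind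
    have h2 := law hA hC hG hI hW n j hj (fun _ => 1) measurable_const
      (fun x => C'.indicator (fun _ => (1 : ℝ≥0∞)) (ext j x) * ENNReal.ofReal (be n (j, ext j x)))
      (hind.mul ((measurable_be hA n j).comp (measurable_ext j)).ennreal_ofReal)
    calc ∫⁻ ω, C'.indicator (fun _ => ENNReal.ofReal ((NN n : ℝ) * w n ω.2 j))
          (fun i => if i < j then dM W n i ω else 0) ∂(PB.prod PE)
        = ∫⁻ ω, ENNReal.ofReal ((NN n : ℝ) * w n ω.2 j) * C'.indicator (fun _ => (1 : ℝ≥0∞))
            (ext j (fun i : Fin j => dM W n i ω)) ∂(PB.prod PE) := by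
          refine lintegral_congr fun ω => ?_
          rw [if_ext]
          by_cases hx : ext j (fun i : Fin j => dM W n i ω) ∈ C'
          · rw [indicator_of_mem hx, indicator_of_mem hx, mul_one]
          · rw [indicator_of_notMem hx, indicator_of_notMem hx, mul_zero]
      _ = _ := h1
      _ = ∫⁻ x, (C'.indicator (fun _ => (1 : ℝ≥0∞)) (ext j x) * ENNReal.ofReal (be n (j, ext j x))) *
            ∫⁻ θ, 1 * ENNReal.ofReal (L n j θ (ext j x)) ∂PE ∂γ := by
          refine lintegral_congr fun x => ?_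
          simp only [one_mul]
          rw [ofReal_D hA, mul_assoc, ← ENNReal.ofReal_mul (be_nonneg hA n j _), be_mul_D hA,
            ENNReal.ofReal_mul hNN, ← ofReal_U hA]
          congr 1
          have hm : Measurable (fun θ : ℝ => ENNReal.ofReal (w n θ j * L n j θ (ext j x))) :=
            ((hA.2.2.2.1 n j).mul ((measurable_L hA n j).comp
              (measurable_id.prodMk measurable_const))).ennreal_ofReal
          rw [← lintegral_const_mul _ hm]
          refine lintegral_congr fun θ => ?_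
          rw [ENNReal.ofReal_mul hNN, ENNReal.ofReal_mul (w_mem hA n θ j).1, mul_assoc]
      _ = _ := h2.symm
      _ = _ := by
          refine lintegral_congr fun ω => ?_
          rw [if_ext]
          by_cases hx : ext j (fun i : Fin j => dM W n i ω) ∈ C'
          · rw [indicator_of_mem hx, indicator_of_mem hx, one_mul, one_mul]
          · rw [indicator_of_notMem hx, indicator_of_notMem hx, zero_mul, mul_zero]
  · have h2 := law hA hC hG hI hW n j hj (fun _ => 1) measurable_const
      (fun x => ENNReal.ofReal ((be n (j, ext j x)) ^ 2))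
      (((measurable_be hA n j).comp (measurable_ext j)).pow_const 2).ennreal_ofReal
    have hwL : Measurable (fun p : (Fin j → ℝ) × ℝ =>
        ENNReal.ofReal (w n p.2 j * L n j p.2 (ext j p.1))) :=
      (((hA.2.2.2.1 n j).comp measurable_snd).mul ((measurable_L hA n j).comp
        (measurable_snd.prodMk ((measurable_ext j).comp measurable_fst)))).ennreal_ofReal
    calc ∫⁻ ω, ENNReal.ofReal ((be n (j, fun i => if i < j then dM W n i ω else 0)) ^ 2)
          ∂(PB.prod PE)
        = ∫⁻ ω, 1 * ENNReal.ofReal ((be n (j, ext j (fun i : Fin j => dM W n i ω))) ^ 2)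
          ∂(PB.prod PE) := by
          refine lintegral_congr fun ω => ?_
          rw [if_ext, one_mul]
      _ = _ := h2
      _ ≤ ∫⁻ x, ENNReal.ofReal (2 * (NN n : ℝ) ^ 2) *
            (∫⁻ θ, ∫⁻ θ', ENNReal.ofReal (w n θ j * L n j θ (ext j x)) *
              ENNReal.ofReal (w n θ' j * L n j θ' (ext j x)) ∂PE ∂PE) ∂γ := by
          refine lintegral_mono fun x => ?_
          simp only [one_mul]
          rw [ofReal_D hA, ← ENNReal.ofReal_mul (sq_nonneg _)]
          have hm : Measurable (fun θ : ℝ => ENNReal.ofReal (w n θ j * L n j θ (ext j x))) :=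
            hwL.comp (measurable_const.prodMk measurable_id)
          have h3 : ∫⁻ θ, ∫⁻ θ', ENNReal.ofReal (w n θ j * L n j θ (ext j x)) *
              ENNReal.ofReal (w n θ' j * L n j θ' (ext j x)) ∂PE ∂PE =
              ENNReal.ofReal (U n j (ext j x)) * ENNReal.ofReal (U n j (ext j x)) := by
            rw [← ofReal_U hA, ← lintegral_mul_const _ hm]
            refine lintegral_congr fun θ => ?_
            rw [lintegral_const_mul _ hm]
          rw [h3, ← ENNReal.ofReal_mul (U_nonneg hA n j _), ← ENNReal.ofReal_mul (by positivity)]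
          refine ENNReal.ofReal_le_ofReal ?_
          have hD := half_le_D hA n j (ext j x)
          have hU := U_nonneg hA n j (ext j x)
          unfold be
          simp only
          rw [div_pow, div_mul_eq_mul_div, div_le_iff₀ (by positivity)]
          have h5 : 0 ≤ ((NN n : ℝ) * U n j (ext j x)) ^ 2 * D n j (ext j x) := by positivity
          nlinarith
      _ = ENNReal.ofReal (2 * (NN n : ℝ) ^ 2) * ∫⁻ θ, ∫⁻ θ', ENNReal.ofReal (w n θ j * w n θ' j) *
            ENNReal.ofReal (Real.exp ((NN n : ℝ) * ∑ i ∈ Finset.range j, w n θ i * w n θ' i))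
            ∂PE ∂PE := by
          rw [abs2 γ PE _ (fun x θ => ENNReal.ofReal (w n θ j * L n j θ (ext j x))) hwL]
          congr 1
          refine lintegral_congr fun θ => lintegral_congr fun θ' => ?_
          have hg := (hG j _ (v_ne n) (fun i => w n θ i) (fun i => w n θ' i)).2
          simp only [dens_eq] at hg
          have e2 : ∀ x : Fin j → ℝ, ENNReal.ofReal (w n θ j * L n j θ (ext j x)) *
              ENNReal.ofReal (w n θ' j * L n j θ' (ext j x)) =
              ENNReal.ofReal (w n θ j * w n θ' j) * (ENNReal.ofReal (L n j θ (ext j x)) *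
                ENNReal.ofReal (L n j θ' (ext j x))) := by
            intro x
            rw [ENNReal.ofReal_mul (w_mem hA n θ j).1, ENNReal.ofReal_mul (w_mem hA n θ' j).1,
              ENNReal.ofReal_mul (w_mem hA n θ j).1]
            ring
          have hmL1 : ∀ θ : ℝ, Measurable (fun x : Fin j → ℝ => ENNReal.ofReal (L n j θ (ext j x))) := by
            intro θ
            have h2 : Measurable (fun x : Fin j → ℝ => (θ, x)) := by fun_prop
            exact hLm.comp h2
          have hmL : Measurable (fun x : Fin j → ℝ => ENNReal.ofReal (L n j θ (ext j x)) *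
              ENNReal.ofReal (L n j θ' (ext j x))) := (hmL1 θ).mul (hmL1 θ')
          simp only [e2]
          rw [lintegral_const_mul _ hmL, hg]
          congr 3
          rw [Finset.sum_range]
          push_cast
          rw [one_div, div_inv_eq_mul, mul_comm]
      _ ≤ ENNReal.ofReal (2 * (NN n : ℝ) ^ 2) * ∫⁻ θ, ∫⁻ θ', ENNReal.ofReal (w n θ j * w n θ' j *
            Real.exp ((NN n : ℝ) * ∑ i ∈ Finset.range (NN n), w n θ i * w n θ' i)) ∂PE ∂PE := by
          gcongr with θ θ'
          rw [ENNReal.ofReal_mul (mul_nonneg (w_mem hA n θ j).1 (w_mem hA n θ' j).1)]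
          gcongr
          exact fun i _ _ => mul_nonneg (w_mem hA n θ i).1 (w_mem hA n θ' i).1
      _ ≤ ENNReal.ofReal (2 * C) := by
          set g : ℝ → ℝ → ℝ := fun θ θ' => w n θ j * w n θ' j *
            Real.exp ((NN n : ℝ) * ∑ i ∈ Finset.range (NN n), w n θ i * w n θ' i) with hg
          have hg0 : ∀ θ θ', 0 ≤ g θ θ' := fun θ θ' => mul_nonneg
            (mul_nonneg (w_mem hA n θ j).1 (w_mem hA n θ' j).1) (Real.exp_pos _).le
          have hgm : Measurable (fun p : ℝ × ℝ => g p.1 p.2) := by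
            refine (((hA.2.2.2.1 n j).comp measurable_fst).mul
              ((hA.2.2.2.1 n j).comp measurable_snd)).mul
              (Real.measurable_exp.comp (measurable_const.mul
                (Finset.measurable_sum _ fun i _ => ?_)))
            exact ((hA.2.2.2.1 n i).comp measurable_fst).mul ((hA.2.2.2.1 n i).comp measurable_snd)
          have hgb : ∀ θ θ', g θ θ' ≤ Real.exp ((NN n : ℝ) * NN n) := by
            intro θ θ'
            have a1 : w n θ j * w n θ' j ≤ 1 :=
              mul_le_one₀ (w_mem hA n θ j).2 (w_mem hA n θ' j).1 (w_mem hA n θ' j).2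
            have a2 : ∑ i ∈ Finset.range (NN n), w n θ i * w n θ' i ≤ NN n := by
              calc ∑ i ∈ Finset.range (NN n), w n θ i * w n θ' i
                  ≤ ∑ i ∈ Finset.range (NN n), (1 : ℝ) := Finset.sum_le_sum fun i _ =>
                    mul_le_one₀ (w_mem hA n θ i).2 (w_mem hA n θ' i).1 (w_mem hA n θ' i).2
                _ = NN n := by simp
            calc g θ θ' ≤ 1 * Real.exp ((NN n : ℝ) * ∑ i ∈ Finset.range (NN n), w n θ i * w n θ' i) :=
                  mul_le_mul_of_nonneg_right a1 (Real.exp_pos _).le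
              _ ≤ _ := by
                  rw [one_mul]
                  exact Real.exp_le_exp.2 (mul_le_mul_of_nonneg_left a2 hNN)
          have hgi : ∀ θ, Integrable (g θ) PE := fun θ => Integrable.of_bound
            (C := Real.exp ((NN n : ℝ) * NN n))
            (hgm.comp (measurable_const.prodMk measurable_id)).aestronglyMeasurable
            (Eventually.of_forall fun θ' => by
              rw [Real.norm_of_nonneg (hg0 θ θ')]
              exact hgb θ θ')
          have hgi2 : Integrable (fun θ => ∫ θ', g θ θ' ∂PE) PE := by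
            refine Integrable.of_bound (C := Real.exp ((NN n : ℝ) * NN n))
              (hgm.stronglyMeasurable.integral_prod_right (ν := PE)).aestronglyMeasurable
              (Eventually.of_forall fun θ => ?_)
            rw [Real.norm_of_nonneg (integral_nonneg fun θ' => hg0 θ θ')]
            calc ∫ θ', g θ θ' ∂PE ≤ ∫ θ', Real.exp ((NN n : ℝ) * NN n) ∂PE :=
                  integral_mono (hgi θ) (integrable_const _) fun θ' => hgb θ θ'
              _ = _ := by simp
          have e3 : ∫⁻ θ, ∫⁻ θ', ENNReal.ofReal (g θ θ') ∂PE ∂PE =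
              ENNReal.ofReal (∫ θ, ∫ θ', g θ θ' ∂PE ∂PE) := by
            rw [ofReal_integral_eq_lintegral_ofReal hgi2
              (Eventually.of_forall fun θ => integral_nonneg fun θ' => hg0 θ θ')]
            refine lintegral_congr fun θ => ?_
            rw [ofReal_integral_eq_lintegral_ofReal (hgi θ) (Eventually.of_forall fun θ' => hg0 θ θ')]
          rw [e3, ← ENNReal.ofReal_mul (by positivity)]
          refine ENNReal.ofReal_le_ofReal ?_
          have h6 := hEn n j hj
          simp only [integral_const_mul] at h6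
          have e4 : 2 * (NN n : ℝ) ^ 2 * ∫ θ, ∫ θ', g θ θ' ∂PE ∂PE =
              2 * ((NN n : ℝ) ^ 2 * ∫ θ, ∫ θ', g θ θ' ∂PE ∂PE) := by ring
          rw [e4]
          have h7 : (NN n : ℝ) ^ 2 * ∫ θ, ∫ θ', g θ θ' ∂PE ∂PE ≤ C := by
            refine le_trans (le_of_eq ?_) (hEn n j hj)
            rw [← integral_const_mul]
            refine integral_congr_ae (Eventually.of_forall fun θ => ?_)
            simp only
            rw [← integral_const_mul]
          linarith

end Run7.h590.RG
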