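import Pool.Agent.Run7.h800.RG.Stm
import Pool.Agent.Run7.h590.RG.BAY

/-! # Piece LIM of the project RG (helper800): the density of the compensator -/

set_option autoImplicit false

namespace Run7.h590.RG

open MeasureTheory ProbabilityTheory Set Filter Topology
open scoped ENNReal NNReal
open Run7.h800.RG

/-- nonnegative martingales bounded in `L²`, abstractly -/
theorem l2lim {Ω : Type*} {m : MeasurableSpace Ω} (μ : Measure Ω) [IsProbabilityMeasure μ]
    (ℱ : Filtration ℕ m) (f : ℕ → Ω → ℝ) (hm : ∀ n, Measurable[ℱ n] (f n)) (h0 : ∀ n p, 0 ≤ f n p)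
    (C : ℝ) (hC0 : 0 ≤ C) (hC : ∀ n, ∫⁻ p, ENNReal.ofReal (f n p ^ 2) ∂μ ≤ ENNReal.ofReal C)
    (hs : ∀ n s, MeasurableSet[ℱ n] s → ∫ p in s, f n p ∂μ = ∫ p in s, f (n + 1) p ∂μ) :
    ∃ b : Ω → ℝ, Measurable[⨆ n, ℱ n] b ∧ (∀ p, 0 ≤ b p) ∧ Integrable b μ ∧
      ∀ n s, MeasurableSet[ℱ n] s → ∫ p in s, b p ∂μ = ∫ p in s, f n p ∂μ := by
  have hfm : ∀ n, Measurable (f n) := fun n => (hm n).mono (ℱ.le n) le_rfl
  have hfs : ∀ n, AEStronglyMeasurable (f n) μ := fun n => (hfm n).aestronglyMeasurable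
  have hen : ∀ n p, ‖f n p‖ₑ = ENNReal.ofReal (f n p) := fun n p => by
    rw [Real.enorm_eq_ofReal (h0 n p)]
  have hbd : ∀ n, eLpNorm (f n) 1 μ ≤ ((1 + C.toNNReal : ℝ≥0) : ℝ≥0∞) := by
    intro n
    rw [eLpNorm_one_eq_lintegral_enorm]
    calc ∫⁻ p, ‖f n p‖ₑ ∂μ ≤ ∫⁻ p, (1 + ENNReal.ofReal (f n p ^ 2)) ∂μ := by
          refine lintegral_mono fun p => ?_
          simp only [hen]
          rw [← ENNReal.ofReal_one, ← ENNReal.ofReal_add zero_le_one (sq_nonneg _)]
          exact ENNReal.ofReal_le_ofReal (by nlinarith [sq_nonneg (f n p - 1), h0 n p])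
      _ = 1 + ∫⁻ p, ENNReal.ofReal (f n p ^ 2) ∂μ := by
          rw [lintegral_add_left measurable_const]
          simp
      _ ≤ 1 + ENNReal.ofReal C := by gcongr; exact hC n
      _ = _ := by
          rw [ENNReal.coe_add, ENNReal.coe_one]
          rfl
  have hint : ∀ n, Integrable (f n) μ := fun n =>
    memLp_one_iff_integrable.1 ⟨hfs n, (hbd n).trans_lt ENNReal.coe_lt_top⟩
  have hmart : Martingale f ℱ μ := by
    refine martingale_of_setIntegral_eq_succ (fun n => ?_) hint hs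
    exact (hm n).stronglyMeasurable
  have hUI : UniformIntegrable f 1 μ := by
    refine uniformIntegrable_of le_rfl ENNReal.one_ne_top hfs fun ε hε => ?_
    have hK : 0 < (C + 1) / ε := by positivity
    refine ⟨((C + 1) / ε).toNNReal, fun n => ?_⟩
    rw [eLpNorm_one_eq_lintegral_enorm]
    calc ∫⁻ p, ‖({x | ((C + 1) / ε).toNNReal ≤ ‖f n x‖₊}.indicator (f n)) p‖ₑ ∂μ
        ≤ ∫⁻ p, ENNReal.ofReal (ε / (C + 1)) * ENNReal.ofReal (f n p ^ 2) ∂μ := by
          refine lintegral_mono fun p => ?_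
          by_cases hp : p ∈ {x | ((C + 1) / ε).toNNReal ≤ ‖f n x‖₊}
          · simp only [indicator_of_mem hp, hen]
            rw [← ENNReal.ofReal_mul (by positivity)]
            refine ENNReal.ofReal_le_ofReal ?_
            have h1 : (C + 1) / ε ≤ f n p := by
              have h2 : (((C + 1) / ε).toNNReal : ℝ) ≤ ‖f n p‖ := by exact_mod_cast hp
              rwa [Real.coe_toNNReal _ hK.le, Real.norm_of_nonneg (h0 n p)] at h2
            have h3 : f n p = ε / (C + 1) * ((C + 1) / ε) * f n p := by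
              field_simp
            calc f n p = ε / (C + 1) * ((C + 1) / ε) * f n p := h3
              _ ≤ ε / (C + 1) * f n p * f n p := by gcongr; exact h0 n p
              _ = _ := by ring
          · simp [indicator_of_notMem hp]
      _ = ENNReal.ofReal (ε / (C + 1)) * ∫⁻ p, ENNReal.ofReal (f n p ^ 2) ∂μ :=
          lintegral_const_mul _ ((hfm n).pow_const 2).ennreal_ofReal
      _ ≤ ENNReal.ofReal (ε / (C + 1)) * ENNReal.ofReal C := by gcongr; exact hC n
      _ = ENNReal.ofReal (ε / (C + 1) * C) := (ENNReal.ofReal_mul (by positivity)).symm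
      _ ≤ ENNReal.ofReal ε := by
          refine ENNReal.ofReal_le_ofReal ?_
          rw [div_mul_eq_mul_div, div_le_iff₀ (by positivity)]
          nlinarith
  set g : Ω → ℝ := ℱ.limitProcess f μ with hg
  have hgm : StronglyMeasurable[⨆ n, ℱ n] g := Filtration.stronglyMeasurable_limitProcess
  have hgi : Integrable g μ :=
    memLp_one_iff_integrable.1 (Filtration.memLp_limitProcess_of_eLpNorm_bdd hfs hbd)
  have hlim : ∀ᵐ ω ∂μ, Tendsto (fun n => f n ω) atTop (𝓝 (g ω)) :=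
    hmart.submartingale.ae_tendsto_limitProcess hbd
  have hae : (fun p => max (g p) 0) =ᵐ[μ] g := by
    filter_upwards [hlim] with p hp
    exact max_eq_left (ge_of_tendsto' hp fun n => h0 n p)
  refine ⟨fun p => max (g p) 0, hgm.measurable.max measurable_const, fun p => le_max_right _ _,
    hgi.congr hae.symm, fun n s hs' => ?_⟩
  rw [setIntegral_congr_ae (g := g) (ℱ.le n s hs') (hae.mono fun p hp _ => hp),
    ← setIntegral_condExp (ℱ.le n) hgi hs']
  refine setIntegral_congr_ae (ℱ.le n s hs') ?_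
  filter_upwards [hmart.ae_eq_condExp_limitProcess hUI n] with p hp _
  exact hp.symm

theorem measurable_be' (hA : S_ARI) (n : ℕ) : Measurable (be n) :=
  measurable_from_prod_countable_right fun j => measurable_be hA n j

theorem be_nonneg' (hA : S_ARI) (n : ℕ) (p : ℕ × (ℕ → ℝ)) : 0 ≤ be n p := be_nonneg hA n p.1 p.2

theorem ix_lt (n : ℕ) {u : ℝ} (hu : u ∈ Ico (0 : ℝ) 1) : ix n u < NN n := by
  have h : (0 : ℝ) < NN n := by exact_mod_cast NN_pos n
  have h1 := hu.1
  have h2 := hu.2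
  unfold ix
  rw [Nat.floor_lt (by positivity)]
  nlinarith

theorem measurable_ix (n : ℕ) : Measurable (ix n) :=
  Nat.measurable_floor.comp (measurable_id.mul_const _)

instance : IsProbabilityMeasure (volume.restrict (Ico (0 : ℝ) 1)) := ⟨by simp⟩

section
variable {Ω₀ : Type} [MeasurableSpace Ω₀] {PB : Measure Ω₀} {W : ℝ≥0 → Ω₀ → ℝ}

theorem measurable_fn (hA : S_ARI) (n : ℕ) : Measurable (fn (Ω₀ := Ω₀) n) := by
  have h1 : Measurable (fun q : ℝ × ℕ => w n q.1 q.2) :=
    measurable_from_prod_countable_left fun j => hA.2.2.2.1 n j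
  have h2 : Measurable (fun p : ℝ × (Ω₀ × ℝ) => (p.2.2, ix n p.1)) :=
    (measurable_snd.comp measurable_snd).prodMk ((measurable_ix n).comp measurable_fst)
  have h3 : Measurable (fun p : ℝ × (Ω₀ × ℝ) => w n p.2.2 (ix n p.1)) := h1.comp h2
  exact measurable_const.mul h3

omit [MeasurableSpace Ω₀] in
theorem fn_nonneg (hA : S_ARI) (n : ℕ) (p : ℝ × (Ω₀ × ℝ)) : 0 ≤ fn n p :=
  mul_nonneg (Nat.cast_nonneg _) (w_mem hA n _ _).1

theorem lint_Q (hW : BM PB W) (F : ℝ × (Ω₀ × ℝ) → ℝ≥0∞) (hF : Measurable F) :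
    ∫⁻ p, F p ∂(Q PB) = ∫⁻ u in Ico (0 : ℝ) 1, ∫⁻ ω, F (u, ω) ∂(PB.prod PE) := by
  have := hW.prob
  exact lintegral_prod _ hF.aemeasurable

theorem meas_Phi (hF : S_FIL) (hW : BM PB W) (n : ℕ) : Measurable (Phi W n) := by
  rw [measurable_iff_comap_le]
  exact (hF Ω₀ _ PB W hW).1 n

/-- the conditional expectation property -/
theorem bn_lint (hA : S_ARI) (hF : S_FIL) (hW : BM PB W)
    (hB : ∀ n j : ℕ, j < NN n → ∀ C' : Set (ℕ → ℝ), MeasurableSet C' →
    ∫⁻ ω, C'.indicator (fun _ => ENNReal.ofReal ((NN n : ℝ) * w n ω.2 j))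
        (fun i => if i < j then dM W n i ω else 0) ∂(PB.prod PE) =
      ∫⁻ ω, C'.indicator (fun x => ENNReal.ofReal (be n (j, x)))
        (fun i => if i < j then dM W n i ω else 0) ∂(PB.prod PE))
    (n : ℕ) (C' : Set (ℕ × (ℕ → ℝ))) (hC' : MeasurableSet C') :
    ∫⁻ p in Phi W n ⁻¹' C', ENNReal.ofReal (bn W n p) ∂(Q PB) =
      ∫⁻ p in Phi W n ⁻¹' C', ENNReal.ofReal (fn n p) ∂(Q PB) := by
  have hPhi := meas_Phi hF hW n
  have hm : MeasurableSet (Phi W n ⁻¹' C') := hPhi hC'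
  have hbm : Measurable (fun p => ENNReal.ofReal (bn W n p)) :=
    ((measurable_be' hA n).comp hPhi).ennreal_ofReal
  have hfm : Measurable (fun p => ENNReal.ofReal (fn (Ω₀ := Ω₀) n p)) :=
    (measurable_fn hA n).ennreal_ofReal
  rw [← lintegral_indicator hm, ← lintegral_indicator hm, lint_Q hW _ (hbm.indicator hm),
    lint_Q hW _ (hfm.indicator hm)]
  refine setLIntegral_congr_fun measurableSet_Ico fun u hu => ?_
  have hj := ix_lt n hu
  have hCj : MeasurableSet {x : ℕ → ℝ | (ix n u, x) ∈ C'} := measurable_prodMk_left hC'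
  have h := hB n (ix n u) hj _ hCj
  refine Eq.trans ?_ (h.symm.trans ?_)
  · refine lintegral_congr fun ω => ?_
    by_cases hx : (u, ω) ∈ Phi W n ⁻¹' C'
    · have hx' : (fun i => if i < ix n u then dM W n i ω else 0) ∈
          {x : ℕ → ℝ | (ix n u, x) ∈ C'} := hx
      rw [indicator_of_mem hx, indicator_of_mem hx']
      rfl
    · have hx' : (fun i => if i < ix n u then dM W n i ω else 0) ∉
          {x : ℕ → ℝ | (ix n u, x) ∈ C'} := hx
      rw [indicator_of_notMem hx, indicator_of_notMem hx']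
  · refine lintegral_congr fun ω => ?_
    by_cases hx : (u, ω) ∈ Phi W n ⁻¹' C'
    · have hx' : (fun i => if i < ix n u then dM W n i ω else 0) ∈
          {x : ℕ → ℝ | (ix n u, x) ∈ C'} := hx
      rw [indicator_of_mem hx, indicator_of_mem hx']
      rfl
    · have hx' : (fun i => if i < ix n u then dM W n i ω else 0) ∉
          {x : ℕ → ℝ | (ix n u, x) ∈ C'} := hx
      rw [indicator_of_notMem hx, indicator_of_notMem hx']

end

theorem t_LIM : S_ARI → S_BAY → S_FIL → S_TWR → S_LIM := by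
  intro hA hB hF hT Ω₀ _ PB W hW
  have := hW.prob
  obtain ⟨C, hC0, hB⟩ := hB
  have hB' := hB Ω₀ _ PB W hW
  obtain ⟨hT1, hT2⟩ := hT Ω₀ _ PB W hW
  obtain ⟨hF1, hF2, -⟩ := hF Ω₀ _ PB W hW
  have hQ : IsProbabilityMeasure (Q PB) := by
    unfold Q
    infer_instance
  have hbnm : ∀ n, Measurable (bn W n) := fun n => (measurable_be' hA n).comp (meas_Phi hF hW n)
  have hbn0 : ∀ n p, 0 ≤ bn W n p := fun n p => be_nonneg' hA n _
  have hreal : ∀ (n : ℕ) (B : Set (ℝ × (Ω₀ × ℝ))), MeasurableSet[Pn W n] B →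
      ∫ p in B, bn W n p ∂(Q PB) = ∫ p in B, fn n p ∂(Q PB) := by
    rintro n B ⟨C', hC', rfl⟩
    rw [integral_eq_lintegral_of_nonneg_ae (f := bn W n)
      (Eventually.of_forall fun p => hbn0 n p) (hbnm n).aestronglyMeasurable,
      integral_eq_lintegral_of_nonneg_ae (f := fn n) (Eventually.of_forall fun p => fn_nonneg hA n p)
      (measurable_fn hA n).aestronglyMeasurable]
    congr 1
    exact bn_lint hA hF hW (fun n j hj => (hB' n j hj).2.2.1) n C' hC'
  let ℱ : Filtration ℕ (inferInstance : MeasurableSpace (ℝ × (Ω₀ × ℝ))) :=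
    { seq := Pn W
      mono' := monotone_nat_of_le_succ hF2
      le' := hF1 }
  obtain ⟨b, h1, h2, h3, h4⟩ := l2lim (Q PB) ℱ (fun n => bn W n)
    (fun n => (measurable_be' hA n).comp (comap_measurable (Phi W n)))
    (fun n p => be_nonneg' hA n _) C hC0 (fun n => by
      rw [lint_Q hW (fun p => ENNReal.ofReal (bn W n p ^ 2)) ((hbnm n).pow_const 2).ennreal_ofReal]
      calc ∫⁻ u in Ico (0 : ℝ) 1, ∫⁻ ω, ENNReal.ofReal (bn W n (u, ω) ^ 2) ∂(PB.prod PE)
          ≤ ∫⁻ u in Ico (0 : ℝ) 1, ENNReal.ofReal C := by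
            refine setLIntegral_mono measurable_const fun u hu => ?_
            exact (hB' n (ix n u) (ix_lt n hu)).2.2.2
        _ = ENNReal.ofReal C := by simp)
    (fun n s hs => by
      have hs1 : MeasurableSet[Pn W (n + 1)] s := hF2 n s hs
      rw [hreal n s hs, hreal (n + 1) s hs1]
      exact (hT2 n s hs).symm)
  exact ⟨b, h1, h2, h3, fun n B hBm => (h4 n B hBm).trans (hreal n B hBm)⟩

end Run7.h590.RG
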